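import Pool.Agent.U259.WP.Val

/-!
# Blockwise alternating sums and divisibility by `p`
-/

set_option autoImplicit false
set_option linter.unusedSectionVars false

open scoped Classical BigOperators

noncomputable section

namespace Pool.Agent.U259.WP

open Pool.Agent.Y63.NV
open Pool.Agent.Y63.KR
open Pool.Agent.Y63.NV.B48B (CF rs)
open Pool.Agent.Y63.AWC (IsIrreducibleCharacter)
open Pool.Agent.N20.KB
open Pool.Agent.N85.WM (Wr Base wrF IsIdem BEq card_sig exists_idem)
open Pool.Agent.N20.DI (Dg HasDef Kd sN S_CLIFF)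
open Pool.Agent.R674.KB (kblk)

section gen

variable {F : Type} [Field F] {G : Type} [Group G] [Finite G]

/-- counting in blocks and counting with one class function, modulo `m` -/
theorem cnt_mod' {X Y : Type} [Finite X] [Finite Y] (a : X → (G → F) → F) (b : Y → (G → F) → F)
    (ha : ∀ x, IsBlock (a x)) (hb : ∀ y, IsBlock (b y)) (m : ℕ)
    {z : G → F} (hz : IsClassFun z) (c : F)
    (h : ∀ B : (G → F) → F, IsBlock B → B z = c →
      Nat.card {x // BEq (a x) B} ≡ Nat.card {y // BEq (b y) B} [MOD m]) :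
    Nat.card {x // a x z = c} ≡ Nat.card {y // b y z = c} [MOD m] := by
  have : Fintype X := Fintype.ofFinite X
  have : Fintype Y := Fintype.ofFinite Y
  let rX : X → (CF G F → F) := fun x => rs (a x)
  let rY : Y → (CF G F → F) := fun y => rs (b y)
  let S : Finset (CF G F → F) := Finset.univ.image rX ∪ Finset.univ.image rY
  have hS : ∀ β ∈ S, ∃ B : (G → F) → F, IsBlock B ∧ rs B = β := by
    intro β hβ
    rcases Finset.mem_union.1 hβ with h | h
    · obtain ⟨x, -, rfl⟩ := Finset.mem_image.1 h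
      exact ⟨a x, ha x, rfl⟩
    · obtain ⟨y, -, rfl⟩ := Finset.mem_image.1 h
      exact ⟨b y, hb y, rfl⟩
  have e1 : Nat.card {x // a x z = c} =
      ∑ β ∈ S, if β ⟨z, hz⟩ = c then Nat.card {x // rX x = β} else 0 :=
    Pool.Agent.Y63.NV.B48B.card_fib rX S (fun x => Finset.mem_union_left _
      (Finset.mem_image_of_mem _ (Finset.mem_univ x))) (fun β => β ⟨z, hz⟩ = c)
  have e2 : Nat.card {y // b y z = c} =
      ∑ β ∈ S, if β ⟨z, hz⟩ = c then Nat.card {y // rY y = β} else 0 :=
    Pool.Agent.Y63.NV.B48B.card_fib rY S (fun y => Finset.mem_union_right _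
      (Finset.mem_image_of_mem _ (Finset.mem_univ y))) (fun β => β ⟨z, hz⟩ = c)
  have e : ∀ {W : Type} (d : W → (G → F) → F) (B : (G → F) → F),
      Nat.card {w // rs (d w) = (rs B : CF G F → F)} = Nat.card {w // BEq (d w) B} := by
    intro W d B
    refine Nat.card_congr (Equiv.subtypeEquivRight fun w => ?_)
    constructor
    · intro h f hf
      exact congrFun h ⟨f, hf⟩
    · intro h
      funext f
      exact h f.1 f.2
  rw [e1, e2, ← ZMod.natCast_eq_natCast_iff, Nat.cast_sum, Nat.cast_sum]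
  refine Finset.sum_congr rfl fun β hβ => ?_
  obtain ⟨B, hB, rfl⟩ := hS β hβ
  by_cases hc : (rs B : CF G F → F) ⟨z, hz⟩ = c
  · rw [if_pos hc, if_pos hc, ZMod.natCast_eq_natCast_iff]
    have h3 := h B hB hc
    rw [← e a, ← e b] at h3
    exact h3
  · rw [if_neg hc, if_neg hc]

end gen

section cnt

variable {F : Type} [Field F] (red : integralClosure ℤ ℂ →+* F)

/-- the pairs of a class of chains of given parity and a character of the stabiliser -/
def YY (p : ℕ) (G : Type) [Group G] (ε : Prop) : Type :=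
  Σ q : {q : Quotient (chainSetoid p G) // Even q.out.1.ncard ↔ ε},
    {χ : chainStabilizer q.1.out.1 → ℂ // IsIrreducibleCharacter χ}

/-- the block of a pair -/
def bY {p : ℕ} {G : Type} [Group G] {ε : Prop} (x : YY p G ε) : (G → F) → F :=
  fun f => centralValue red x.2.1 (fun y => f y)

variable {p : ℕ} {G : Type} [Group G] [Finite G]

instance fin_irr' (H : Type) [Group H] [Finite H] :
    Finite {χ : H → ℂ // IsIrreducibleCharacter χ} :=
  (Pool.Agent.Y914.NV.irr ℂ H).1.to_subtype

instance fin_chain' : Finite (Quotient (chainSetoid p G)) := Quotient.finite _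

instance fin_YY (ε : Prop) : Finite (YY p G ε) := by
  unfold YY
  infer_instance

/-- the number of characters of `H` with a property of the central character -/
def nQ {G : Type} [Group G] (P : ((G → F) → F) → Prop) (H : Subgroup G) : ℕ :=
  Nat.card {χ : H → ℂ // IsIrreducibleCharacter χ ∧ P (fun f => centralValue red χ (fun x => f x))}

theorem card_YY (P : ((G → F) → F) → Prop) (ε : Prop)
    [Fintype (Quotient (chainSetoid p G))] :
    Nat.card {x : YY p G ε // P (bY red x)} = ∑ q : Quotient (chainSetoid p G),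
      if (Even q.out.1.ncard ↔ ε) then nQ red P (chainStabilizer q.out.1) else 0 := by
  have h := card_sig (fun q : {q : Quotient (chainSetoid p G) // Even q.out.1.ncard ↔ ε} =>
    {χ : chainStabilizer q.1.out.1 → ℂ // IsIrreducibleCharacter χ})
    (fun x => P (bY red x))
  have _i : Fintype {q : Quotient (chainSetoid p G) // Even q.out.1.ncard ↔ ε} :=
    Fintype.ofFinite _
  refine Eq.trans h ?_
  rw [finsum_eq_sum_of_fintype, ← Finset.sum_filter]
  have h2 := Finset.sum_subtype (F := _i) (p := fun q : Quotient (chainSetoid p G) =>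
    (Even q.out.1.ncard ↔ ε)) (Finset.univ.filter (fun q : Quotient (chainSetoid p G) =>
      (Even q.out.1.ncard ↔ ε))) (by simp)
    (fun q => nQ red P (chainStabilizer q.out.1))
  rw [h2]
  refine Finset.sum_congr rfl fun q _ => ?_
  unfold nQ
  exact Nat.card_congr
    { toFun := fun t => ⟨t.1.1, t.1.2, t.2⟩
      invFun := fun t => ⟨⟨t.1, t.2.1⟩, t.2.2⟩
      left_inv := fun t => rfl
      right_inv := fun t => rfl }

/-- the alternating sum as a difference -/
theorem alt_cnt' (P : ((G → F) → F) → Prop) :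
    alternatingSum p G (fun H => (nQ red P H : ℤ)) =
      (Nat.card {x : YY p G True // P (bY red x)} : ℤ) -
        Nat.card {x : YY p G False // P (bY red x)} := by
  have _i : Fintype (Quotient (chainSetoid p G)) := Fintype.ofFinite _
  rw [card_YY, card_YY]
  unfold alternatingSum
  rw [finsum_eq_sum_of_fintype]
  push_cast
  rw [← Finset.sum_sub_distrib]
  refine Finset.sum_congr rfl fun q _ => ?_
  by_cases h : Even q.out.1.ncard
  · rw [h.neg_one_pow, if_pos (iff_of_true h trivial), if_neg (fun h2 => h2.1 h)]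
    ring
  · rw [(Nat.not_even_iff_odd.1 h).neg_one_pow, if_neg (fun h2 => h (h2.2 trivial)),
      if_pos (iff_of_false h id)]
    ring

/-- the alternating sum for a block -/
def SB (p : ℕ) {F : Type} [Field F] (red : integralClosure ℤ ℂ →+* F) {G : Type} [Group G]
    (B : (G → F) → F) : ℤ :=
  alternatingSum p G (fun H => (numIrrInd red H B : ℤ))

theorem SB_eq (B : (G → F) → F) : SB p red B =
    alternatingSum p G (fun H => (nQ red (fun b => BEq b B) H : ℤ)) := rfl

theorem aB_nQ (z : G → F) (c : F) : aB red p G z c =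
    alternatingSum p G (fun H => (nQ red (fun b => b z = c) H : ℤ)) := rfl

variable [hp : Fact p.Prime] [IsAlgClosed F] [CharP F p]

theorem bY_block {ε : Prop} (x : YY p G ε) : IsBlock (bY red x) :=
  kblk p F red G x.1.1.out.1 x.2.1 x.1.1.out.2 x.2.2

/-- from blocks to class functions -/
theorem dvd_aB {z : G → F} (hz : IsClassFun z) (c : F) (m : ℕ)
    (h : ∀ B : (G → F) → F, IsBlock B → B z = c → (m : ℤ) ∣ SB p red B) :
    (m : ℤ) ∣ aB red p G z c := by
  rw [aB_nQ, alt_cnt']
  have h1 := cnt_mod' (bY (p := p) (G := G) (ε := True) red)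
    (bY (p := p) (G := G) (ε := False) red)
    (bY_block red) (bY_block red) m hz c (fun B hB hc => by
      have h2 := h B hB hc
      rw [SB_eq, alt_cnt'] at h2
      exact (Nat.modEq_iff_dvd.2 (by
        rw [← dvd_neg, neg_sub]
        exact h2)))
  have h2 := Nat.modEq_iff_dvd.1 h1
  rw [← dvd_neg, neg_sub] at h2
  exact h2

/-- the idempotent of a block -/
def Sep {G : Type} [Group G] (B : (G → F) → F) (e : G → F) : Prop :=
  IsIdem e ∧ B e = 1 ∧ ∀ B' : (G → F) → F, IsBlock B' → B' e = 1 → BEq B B'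

theorem SB_sep {B : (G → F) → F} {e : G → F} (h : Sep B e) :
    SB p red B = aB red p G e 1 := by
  have h1 : ∀ ε : Prop, Nat.card {x : YY p G ε // BEq (bY red x) B} =
      Nat.card {x : YY p G ε // bY red x e = 1} := by
    intro ε
    refine Nat.card_congr (Equiv.subtypeEquivRight fun x => ?_)
    constructor
    · intro h2
      rw [h2 e h.1.cl]
      exact h.2.1
    · intro h2
      exact (h.2.2 _ (bY_block red x) h2).symm
  have h2 := alt_cnt' (p := p) red (G := G) (fun b => BEq b B)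
  have h3 := alt_cnt' (p := p) red (G := G) (fun b => b e = 1)
  rw [SB_eq, aB_nQ, h2, h3, h1, h1]

theorem exists_sep {B : (G → F) → F} (hB : IsBlock B) : ∃ e, Sep B e := by
  obtain ⟨e, he, h1, h2⟩ := exists_idem hB
  exact ⟨e, he, h1, h2⟩

theorem numDz_pos {B : (G → F) → F} (h : numDzBlock p red B = 0) {χ : G → ℂ}
    (hχ : IsIrreducibleCharacter χ) (hd : HasDef p 0 χ) :
    ¬ ∀ f : G → F, IsClassFun f → centralValue red χ f = B f := by
  intro h2
  have h3 : IsWt p (⊥ : Subgroup G) χ := Pool.Agent.N237.DI.wt_iff.2 ⟨hχ, hd⟩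
  unfold numDzBlock at h
  have h4 : Finite {χ : G → ℂ // IsWt p (⊥ : Subgroup G) χ ∧
      ∀ f : G → F, IsClassFun f → centralValue red χ f = B f} :=
    ((Pool.Agent.Y914.NV.irr ℂ G).1.subset fun _ h => h.1.irr).to_subtype
  have h5 : Nonempty {χ : G → ℂ // IsWt p (⊥ : Subgroup G) χ ∧
      ∀ f : G → F, IsClassFun f → centralValue red χ f = B f} := ⟨⟨χ, h3, h2⟩⟩
  exact Nat.card_pos.ne' h

theorem noDz_of {B : (G → F) → F} {e : G → F} (hs : Sep B e) (h : numDzBlock p red B = 0) :
    NoDz p red e := by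
  intro χ hχ hd hv
  have _f : Fintype G := Fintype.ofFinite _
  refine numDz_pos red h hχ hd fun f hf => ?_
  exact ((hs.2.2 _ (Pool.Agent.Y930.NV.cvh F red G χ hχ) hv) f hf).symm

theorem numDz_of {B : (G → F) → F} {e : G → F} (he : IsClassFun e) (h1 : B e = 1)
    (h : NoDz p red e) : numDzBlock p red B = 0 := by
  unfold numDzBlock
  rw [Nat.card_eq_zero]
  left
  constructor
  rintro ⟨χ, hχ, h2⟩
  obtain ⟨h3, h4⟩ := Pool.Agent.N237.DI.wt_iff.1 hχ
  exact h χ h3 h4 ((h2 e he).trans h1)

/-- no nontrivial normal `p`-subgroup -/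
def Op1 (p : ℕ) (G : Type) [Group G] : Prop :=
  ∀ P : Subgroup G, P.Normal → IsPGroup p P → P = ⊥

theorem SB_zero (h : ¬ Op1 p G) (B : (G → F) → F) (hB : IsBlock B) : SB p red B = 0 := by
  unfold Op1 at h
  push Not at h
  obtain ⟨P, hP, hPp, hP1⟩ := h
  obtain ⟨e, he⟩ := exists_sep hB
  rw [SB_sep red he]
  exact Pool.Agent.N78.DIBL.alt_normal hP hPp hP1 _ (conjInv_knum red he.1.cl 1)

end cnt

section arith

theorem pow_dvd_step {p k : ℕ} (hp : p.Prime) (hk : 1 ≤ k) {x y : ℤ} (h : (p : ℤ) * y = x ^ p - x)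
    (hx : (p : ℤ) ^ k ∣ x) (hy : (p : ℤ) ^ k ∣ y) : (p : ℤ) ^ (k + 1) ∣ x := by
  have h1 : (p : ℤ) ^ (k + 1) ∣ x ^ p := by
    have h2 : (p : ℤ) ^ (k * p) ∣ x ^ p := by
      rw [pow_mul]
      exact pow_dvd_pow_of_dvd hx p
    refine (pow_dvd_pow _ ?_).trans h2
    have := hp.two_le
    nlinarith
  have h2 : (p : ℤ) ^ (k + 1) ∣ (p : ℤ) * y := by
    rw [pow_succ']
    exact mul_dvd_mul_left _ hy
  have h3 : x = x ^ p - (p : ℤ) * y := by rw [h]; ring
  rw [h3]
  exact dvd_sub h1 h2

theorem pow_dvd_back {p k : ℕ} (hp : p.Prime) {x y : ℤ} (h : (p : ℤ) * y = x ^ p - x)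
    (hx : (p : ℤ) ^ (k + 1) ∣ x) : (p : ℤ) ^ k ∣ y := by
  have h1 : (p : ℤ) ^ (k + 1) ∣ (p : ℤ) * y := by
    rw [h]
    exact dvd_sub (hx.trans (dvd_pow_self x hp.ne_zero)) hx
  rw [pow_succ'] at h1
  exact (mul_dvd_mul_iff_left (by exact_mod_cast hp.ne_zero)).1 h1

theorem eq_zero_of_pow {p : ℕ} (hp : p.Prime) {x : ℤ} (h : ∀ k : ℕ, (p : ℤ) ^ k ∣ x) : x = 0 := by
  by_contra hx
  have h1 := h x.natAbs
  have h2 := Int.natAbs_dvd_natAbs.2 h1
  rw [Int.natAbs_pow, Int.natAbs_natCast] at h2
  have h3 := Nat.le_of_dvd (Int.natAbs_pos.2 hx) h2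
  have h4 : x.natAbs < p ^ x.natAbs := Nat.lt_pow_self hp.one_lt
  omega

end arith

end Pool.Agent.U259.WP
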