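import Pool.Agent.U259.WP.Frob

/-!
# Alternating sums of numbers of characters in blocks and wreath products with `C_p`

`p S(G ≀ C_p, e ⊗ ⋯ ⊗ e) = S(G, e)^p - S(G, e)`.
-/

set_option autoImplicit false
set_option linter.unusedSectionVars false

open scoped Classical BigOperators

noncomputable section

namespace Pool.Agent.U259.WP

open Pool.Agent.Y63.NV
open Pool.Agent.Y63.KR
open Pool.Agent.N20.KB
open Pool.Agent.N85.WM (Wr Base wrF IsIdem shiftHom mem_base card_wr card_quot wrF_inZ)
open SemidirectProduct (inl inr)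

section cyc

variable {p : ℕ} [hp : Fact p.Prime] {G : Type} [Group G]

theorem mul_left' (x y : Wr p G) (i : ZMod p) :
    (x * y).left i = x.left i * y.left (i - x.right.toAdd) := by
  rw [SemidirectProduct.mul_left]
  rfl

/-- the conjugates of the generator of the complement `C_p` -/
def X (n : ZMod p → G) : Wr p G := inl n * inr (Multiplicative.ofAdd 1) * (inl n)⁻¹

theorem X_right (n : ZMod p → G) : (X n).right = Multiplicative.ofAdd 1 := by
  unfold X
  simp

theorem X_left (n : ZMod p → G) (i : ZMod p) : (X n).left i = n i * (n (i - 1))⁻¹ := by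
  unfold X
  rw [← map_inv, mul_left', mul_left']
  simp

theorem X_pow (n : ZMod p → G) : X n ^ p = 1 := by
  unfold X
  rw [conj_pow, ← map_pow, ← ofAdd_nsmul]
  have : (p • (1 : ZMod p)) = 0 := by
    rw [nsmul_eq_mul, mul_one]
    exact ZMod.natCast_self p
  rw [this, ofAdd_zero, map_one, mul_one, mul_inv_cancel]

/-- the complements of the base group -/
def R (n : ZMod p → G) : Subgroup (Wr p G) := Subgroup.zpowers (X n)

theorem right_pow (x : Wr p G) (k : ℕ) : (x ^ k).right = x.right ^ k :=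
  map_pow (SemidirectProduct.rightHom : Wr p G →* Multiplicative (ZMod p)) x k

theorem right_zpow (x : Wr p G) (k : ℤ) : (x ^ k).right = x.right ^ k :=
  map_zpow (SemidirectProduct.rightHom : Wr p G →* Multiplicative (ZMod p)) x k

theorem ofAdd_pow_val (s : ZMod p) :
    (Multiplicative.ofAdd (1 : ZMod p)) ^ s.val = Multiplicative.ofAdd s := by
  have : NeZero p := ⟨hp.out.ne_zero⟩
  rw [← ofAdd_nsmul, nsmul_eq_mul, mul_one, ZMod.natCast_zmod_val]

theorem const_of (f : ZMod p → G) (h : ∀ i, f i = f (i - 1)) (i : ZMod p) : f i = f 0 := by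
  have : NeZero p := ⟨hp.out.ne_zero⟩
  have h1 : ∀ k : ℕ, f (k : ZMod p) = f 0 := by
    intro k
    induction k with
    | zero => rw [Nat.cast_zero]
    | succ k ih =>
      rw [h, Nat.cast_succ, add_sub_cancel_right, ih]
  rw [← ZMod.natCast_zmod_val i]
  exact h1 _

/-- being a complement -/
def Cpl (S : Subgroup (Wr p G)) : Prop :=
  IsPGroup p S ∧ Base p G ⊔ S = ⊤ ∧ Base p G ⊓ S = ⊥

theorem cpl_R (n : ZMod p → G) : Cpl (R n) := by
  refine ⟨?_, ?_, ?_⟩
  · rintro ⟨_, k, rfl⟩
    refine ⟨1, Subtype.ext ?_⟩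
    change (X n ^ k) ^ (p ^ 1) = 1
    rw [pow_one, ← zpow_natCast, ← zpow_mul, mul_comm, zpow_mul, zpow_natCast, X_pow, one_zpow]
  · rw [eq_top_iff]
    intro y _
    have h1 : y * (X n ^ (y.right.toAdd.val))⁻¹ ∈ Base p G := by
      rw [mem_base, SemidirectProduct.mul_right, SemidirectProduct.inv_right, right_pow, X_right,
        ofAdd_pow_val, ofAdd_toAdd, mul_inv_cancel]
    have h2 : X n ^ (y.right.toAdd.val) ∈ R n := Subgroup.npow_mem_zpowers _ _
    have h3 := Subgroup.mul_mem_sup h1 h2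
    rw [inv_mul_cancel_right] at h3
    exact h3
  · rw [eq_bot_iff]
    rintro y ⟨h1, k, rfl⟩
    have h1' : (X n ^ k : Wr p G) ∈ Base p G := h1
    rw [mem_base, right_zpow, X_right, ← ofAdd_zsmul, zsmul_eq_mul, mul_one] at h1'
    have h2 : ((k : ℤ) : ZMod p) = 0 := by
      have := congrArg Multiplicative.toAdd h1'
      simpa using this
    obtain ⟨j, rfl⟩ := (ZMod.intCast_zmod_eq_zero_iff_dvd k p).1 h2
    rw [Subgroup.mem_bot]
    change X n ^ ((p : ℤ) * j) = 1
    rw [zpow_mul, zpow_natCast, X_pow, one_zpow]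

theorem exists_R {S : Subgroup (Wr p G)} (h : Cpl S) : ∃ n, S = R n := by
  have : NeZero p := ⟨hp.out.ne_zero⟩
  obtain ⟨-, h2, h3⟩ := h
  have h4 : (inr (Multiplicative.ofAdd 1) : Wr p G) ∈ Base p G ⊔ S := by
    rw [h2]
    exact Subgroup.mem_top _
  obtain ⟨y, hy, r, hr, hyr⟩ := Subgroup.mem_sup_of_normal_left.1 h4
  have hy' : y.right = 1 := (mem_base p G).1 hy
  have hr1 : r.right = Multiplicative.ofAdd 1 := by
    have h5 := congrArg SemidirectProduct.right hyr
    rw [SemidirectProduct.mul_right, hy', one_mul, SemidirectProduct.right_inr] at h5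
    exact h5
  have hrp : r ^ p = 1 := by
    have h5 : r ^ p ∈ Base p G ⊓ S := by
      refine ⟨?_, S.pow_mem hr p⟩
      change r ^ p ∈ Base p G
      rw [mem_base, right_pow, hr1, ← ofAdd_nsmul, nsmul_eq_mul, mul_one, ZMod.natCast_self, ofAdd_zero]
    rw [h3] at h5
    exact Subgroup.mem_bot.1 h5
  let n : ZMod p → G := fun i => (r ^ i.val).left i
  have hn : r = X n := by
    apply SemidirectProduct.ext
    · funext i
      rw [X_left]
      rw [eq_mul_inv_iff_mul_eq]
      change r.left i * (r ^ (i - 1).val).left (i - 1) = (r ^ i.val).left i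
      have h6 := mul_left' r (r ^ (i - 1).val) i
      rw [hr1] at h6
      change _ = r.left i * (r ^ (i - 1).val).left (i - 1) at h6
      rw [← h6, ← pow_succ']
      have h7 : r ^ ((i - 1).val + 1) = r ^ i.val := by
        rw [pow_eq_pow_mod ((i - 1).val + 1) hrp]
        congr 1
        rw [← ZMod.val_natCast]
        congr 1
        rw [Nat.cast_succ, ZMod.natCast_zmod_val, sub_add_cancel]
      rw [h7]
    · rw [hr1, X_right]
  refine ⟨n, ?_⟩
  apply le_antisymm
  · intro y hy
    have h5 : y * (X n ^ (y.right.toAdd.val))⁻¹ ∈ Base p G ⊓ S := by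
      refine ⟨?_, S.mul_mem hy (S.inv_mem (S.pow_mem (hn ▸ hr) _))⟩
      change _ ∈ Base p G
      rw [mem_base, SemidirectProduct.mul_right, SemidirectProduct.inv_right, right_pow, X_right,
        ofAdd_pow_val, ofAdd_toAdd, mul_inv_cancel]
    rw [h3, Subgroup.mem_bot, mul_inv_eq_one] at h5
    rw [h5]
    exact Subgroup.npow_mem_zpowers _ _
  · rw [R, Subgroup.zpowers_le, ← hn]
    exact hr

theorem X_eq_of_R {n m : ZMod p → G} (h : R n = R m) : X n = X m := by
  have h1 : X n ∈ R m := h ▸ Subgroup.mem_zpowers (X n)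
  obtain ⟨k, hk⟩ := h1
  have hk' : X m ^ k = X n := hk
  have h2 := congrArg SemidirectProduct.right hk'
  rw [right_zpow, X_right, X_right, ← ofAdd_zsmul, zsmul_eq_mul, mul_one] at h2
  have h3 : ((k : ℤ) : ZMod p) = 1 := by
    have := congrArg Multiplicative.toAdd h2
    simpa using this
  have h4 : (((k - 1 : ℤ)) : ZMod p) = 0 := by
    push_cast
    rw [h3, sub_self]
  obtain ⟨j, hj⟩ := (ZMod.intCast_zmod_eq_zero_iff_dvd (k - 1) p).1 h4
  have h5 : k = (p : ℤ) * j + 1 := by omega
  rw [← hk', h5, zpow_add, zpow_mul, zpow_natCast, X_pow, one_zpow, one_mul, zpow_one]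

theorem X_eq_iff {n m : ZMod p → G} : X n = X m ↔ ∃ g : G, n = fun i => m i * g := by
  constructor
  · intro h
    have h1 : ∀ i, (m i)⁻¹ * n i = (m (i - 1))⁻¹ * n (i - 1) := by
      intro i
      have h2 := congrFun (congrArg SemidirectProduct.left h) i
      rw [X_left, X_left] at h2
      have h3 : n i = m i * (m (i - 1))⁻¹ * n (i - 1) := by
        rw [← h2, inv_mul_cancel_right]
      rw [h3]
      group
    refine ⟨(m 0)⁻¹ * n 0, ?_⟩
    funext i
    have h4 := const_of (fun i => (m i)⁻¹ * n i) h1 i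
    have h5 : (m i)⁻¹ * n i = (m 0)⁻¹ * n 0 := h4
    rw [← h5]
    group
  · rintro ⟨g, rfl⟩
    apply SemidirectProduct.ext
    · funext i
      rw [X_left, X_left]
      group
    · rw [X_right, X_right]

/-- the number of the `n` with `R n = S` -/
theorem card_fib [Finite G] {S : Subgroup (Wr p G)} (h : Cpl S) :
    Nat.card {n : ZMod p → G // R n = S} = Nat.card G := by
  obtain ⟨m, rfl⟩ := exists_R h
  refine (Nat.card_congr (Equiv.ofBijective (fun g : G =>
    (⟨fun i => m i * g, by
      change Subgroup.zpowers _ = Subgroup.zpowers _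
      rw [X_eq_iff.2 ⟨g, rfl⟩]⟩ : {n : ZMod p → G // R n = R m})) ⟨?_, ?_⟩)).symm
  · intro g g' h1
    have h2 := congrFun (congrArg Subtype.val h1) 0
    exact mul_left_cancel h2
  · rintro ⟨n, hn⟩
    obtain ⟨g, rfl⟩ := X_eq_iff.1 (X_eq_of_R hn)
    exact ⟨g, rfl⟩

theorem mem_cent {n : ZMod p → G} {y : Wr p G} :
    y ∈ Subgroup.centralizer (R n : Set (Wr p G)) ↔ X n * y = y * X n := by
  rw [Subgroup.mem_centralizer_iff]
  constructor
  · intro h
    exact h _ (Subgroup.mem_zpowers _)
  · rintro h _ ⟨k, rfl⟩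
    have h1 : Commute (X n) y := h
    exact h1.zpow_left k

/-- the centraliser of a complement in the base group -/
def ψ (n : ZMod p → G) : G ≃* ↥(Base p G ⊓ Subgroup.centralizer (R n : Set (Wr p G))) where
  toFun g := ⟨inl fun i => n i * g * (n i)⁻¹, by
    refine ⟨(mem_base p G).2 rfl, ?_⟩
    change _ ∈ Subgroup.centralizer (R n : Set (Wr p G))
    rw [mem_cent]
    apply SemidirectProduct.ext
    · funext i
      rw [mul_left', mul_left', X_left, X_right]
      change n i * (n (i - 1))⁻¹ * (n (i - 1) * g * (n (i - 1))⁻¹) =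
        n i * g * (n i)⁻¹ * ((X n).left (i - (1 : Multiplicative (ZMod p)).toAdd))
      rw [toAdd_one, sub_zero, X_left]
      group
    · rw [SemidirectProduct.mul_right, SemidirectProduct.mul_right, mul_comm]⟩
  invFun y := (n 0)⁻¹ * (y : Wr p G).left 0 * n 0
  left_inv g := by
    change (n 0)⁻¹ * (n 0 * g * (n 0)⁻¹) * n 0 = g
    group
  right_inv := by
    rintro ⟨y, hy1, hy2⟩
    apply Subtype.ext
    change inl (fun i => n i * ((n 0)⁻¹ * y.left 0 * n 0) * (n i)⁻¹) = y
    have hy1' : y.right = 1 := (mem_base p G).1 hy1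
    have h1 : X n * y = y * X n := mem_cent.1 hy2
    have h2 : ∀ i, (n i)⁻¹ * y.left i * n i = (n (i - 1))⁻¹ * y.left (i - 1) * n (i - 1) := by
      intro i
      have h3 := congrFun (congrArg SemidirectProduct.left h1) i
      rw [mul_left', mul_left', X_left, X_right, hy1', toAdd_one, sub_zero, X_left] at h3
      change n i * (n (i - 1))⁻¹ * y.left (i - 1) = y.left i * (n i * (n (i - 1))⁻¹) at h3
      have h4 : y.left i = n i * (n (i - 1))⁻¹ * y.left (i - 1) * (n i * (n (i - 1))⁻¹)⁻¹ := by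
        rw [h3]
        group
      rw [h4]
      group
    apply SemidirectProduct.ext
    · funext i
      change n i * ((n 0)⁻¹ * y.left 0 * n 0) * (n i)⁻¹ = y.left i
      have h5 := const_of (fun i => (n i)⁻¹ * y.left i * n i) h2 i
      have h6 : (n i)⁻¹ * y.left i * n i = (n 0)⁻¹ * y.left 0 * n 0 := h5
      rw [← h6]
      group
    · rw [hy1']
      rfl
  map_mul' g h := by
    apply Subtype.ext
    change inl (fun i => n i * (g * h) * (n i)⁻¹) =
      inl (fun i => n i * g * (n i)⁻¹) * inl (fun i => n i * h * (n i)⁻¹)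
    rw [← map_mul]
    congr 1
    funext i
    change n i * (g * h) * (n i)⁻¹ = n i * g * (n i)⁻¹ * (n i * h * (n i)⁻¹)
    group

theorem ψ_coe (n : ZMod p → G) (g : G) :
    ((ψ n g : ↥(Base p G ⊓ Subgroup.centralizer (R n : Set (Wr p G)))) : Wr p G) =
      inl fun i => n i * g * (n i)⁻¹ := rfl

end cyc

section main

variable {p : ℕ} [hp : Fact p.Prime] {F : Type} [Field F] [IsAlgClosed F] [CharP F p]
  (red : integralClosure ℤ ℂ →+* F) {G : Type} [Group G] [Finite G]

theorem wrF_ψ {e : G → F} (he : IsClassFun e) (n : ZMod p → G) (g : G) :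
    wrF p e (ψ n g : Wr p G) = e g ^ p := by
  rw [ψ_coe]
  unfold wrF
  rw [if_pos (by rfl)]
  have h : ∀ i : ZMod p, e ((inl (fun i => n i * g * (n i)⁻¹) : Wr p G).left i) = e g :=
    fun i => he (n i) g
  rw [Finset.prod_congr rfl fun i _ => h i, Finset.prod_const, Finset.card_univ, ZMod.card]

instance fin_wr : Finite (Wr p G) :=
  have : NeZero p := ⟨hp.out.ne_zero⟩
  Finite.of_equiv _ (SemidirectProduct.equivProd (φ := shiftHom p G)).symm

/-- the sums over the complements -/
theorem sum_cpl {e : G → F} (he : IsClassFun e) :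
    (Nat.card G : ℤ) * (∑ᶠ S : Subgroup (Wr p G),
      if IsPGroup p S ∧ Base p G ⊔ S = ⊤ ∧ Base p G ⊓ S = ⊥ then
        AA p red ↥(Base p G ⊓ Subgroup.centralizer (S : Set (Wr p G)))
          (fun x : ↥(Base p G ⊓ Subgroup.centralizer (S : Set (Wr p G))) => wrF p e x) 1 else 0) =
      (Nat.card G : ℤ) ^ p * AA p red G e 1 := by
  have : NeZero p := ⟨hp.out.ne_zero⟩
  have _i : Fintype (Subgroup (Wr p G)) := Fintype.ofFinite _
  have _j : Fintype (ZMod p → G) := Fintype.ofFinite _
  have h1 : ∀ n : ZMod p → G, AA p red ↥(Base p G ⊓ Subgroup.centralizer (R n : Set (Wr p G)))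
          (fun x : ↥(Base p G ⊓ Subgroup.centralizer (R n : Set (Wr p G))) => wrF p e x) 1 =
        AA p red G e 1 := by
    intro n
    have hz := (wrF_inZ p G he).conj
    have h2 := aa_congr (p := p) red (ψ n) (z := fun x => wrF p e x) (fun g x => hz g x) 1
    rw [← h2, ← aa_frob (p := p) red he]
    congr 1
    funext x
    exact wrF_ψ he n x
  rw [finsum_eq_sum_of_fintype, Finset.mul_sum]
  have h3 : ∀ S : Subgroup (Wr p G), (Nat.card G : ℤ) *
      (if IsPGroup p S ∧ Base p G ⊔ S = ⊤ ∧ Base p G ⊓ S = ⊥ then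
        AA p red ↥(Base p G ⊓ Subgroup.centralizer (S : Set (Wr p G)))
          (fun x : ↥(Base p G ⊓ Subgroup.centralizer (S : Set (Wr p G))) => wrF p e x) 1 else 0) =
      ∑ n : ZMod p → G, if R n = S then AA p red G e 1 else 0 := by
    intro S
    rw [← Finset.sum_filter, Finset.sum_const, nsmul_eq_mul, ← Fintype.card_subtype,
      ← Nat.card_eq_fintype_card]
    split_ifs with h
    · obtain ⟨m, rfl⟩ := exists_R h
      rw [card_fib (cpl_R m), h1]
    · have h4 : IsEmpty {n : ZMod p → G // R n = S} := ⟨fun n => h (n.2 ▸ cpl_R n.1)⟩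
      rw [Nat.card_of_isEmpty (α := {n : ZMod p → G // R n = S}), Nat.cast_zero, zero_mul, mul_zero]
  rw [Finset.sum_congr rfl fun S _ => h3 S, Finset.sum_comm]
  simp only [Finset.sum_ite_eq, Finset.mem_univ, if_true]
  rw [Finset.sum_const, Finset.card_univ, nsmul_eq_mul, ← Nat.card_eq_fintype_card, Nat.card_fun,
    Nat.card_zmod]
  push_cast
  rfl

/-- the isomorphism with the base group -/
def bE : (ZMod p → G) ≃* Base p G :=
  MonoidHom.ofInjective (f := (inl : (ZMod p → G) →* Wr p G)) SemidirectProduct.inl_injective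

/-- **the alternating sum of the wreath product with `C_p`** -/
theorem wr_formula {e : G → F} (he : IsIdem e) :
    (p : ℤ) * aB red p (Wr p G) (wrF p e) 1 = aB red p G e 1 ^ p - aB red p G e 1 := by
  have : NeZero p := ⟨hp.out.ne_zero⟩
  have hz := wrF_inZ p G he.cl
  have hi : (Base p G).index = p := card_quot p G
  have h1 := aa_index (p := p) red (N := Base p G) hi hz 1
  have h2 : AA p red (Base p G) (fun x : Base p G => wrF p e x) 1 =
      (Nat.card G : ℤ) ^ p * aB red p G e 1 ^ p := by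
    have h3 := aa_congr (p := p) red (bE (p := p) (G := G)) (z := fun x : Base p G => wrF p e x)
      (fun g x => hz.conj g x) 1
    rw [← h3]
    have h4 : (fun x : ZMod p → G => wrF p e ((bE x : Base p G) : Wr p G)) =
        fun x => ∏ i, e (x i) := by
      funext x
      change wrF p e (inl x : Wr p G) = _
      unfold wrF
      rw [if_pos (by rfl)]
      rfl
    rw [h4, aa_aB red (cl_tens he.cl), aB_zmod red he, Nat.card_fun, Nat.card_zmod]
    push_cast
    rfl
  have h5 := sum_cpl (p := p) red he.cl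
  rw [aa_aB red he.cl] at h5
  rw [aa_aB red hz.conj, h2, card_wr] at h1
  have h6 : (Nat.card G : ℤ) ≠ 0 := by exact_mod_cast Nat.card_pos.ne'
  have h7 : (Nat.card G : ℤ) ^ p ≠ 0 := pow_ne_zero _ h6
  apply mul_left_cancel₀ (mul_ne_zero h6 h7)
  push_cast at h1
  linear_combination (Nat.card G : ℤ) * h1 - h5

end main

end Pool.Agent.U259.WP
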