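import Pool.Agent.N20.KB.Mult

/-!
# Alternating sums of numbers of characters in blocks and field automorphisms
-/

set_option autoImplicit false
set_option linter.unusedSectionVars false

open scoped Classical BigOperators

noncomputable section

namespace Pool.Agent.U259.WP

open Pool.Agent.Y63.NV
open Pool.Agent.Y63.KR
open Pool.Agent.N20.KB

section twist

variable {F : Type} [Field F] {G : Type} [Group G]

/-- twisting an irreducible trace by a field automorphism -/
theorem irr_map (σ : F ≃+* F) {φ : G → F} (h : IsIrrTrace φ) :
    IsIrrTrace (fun x => σ (φ x)) := by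
  obtain ⟨V, i1, i2, i3, ρ, hρ, rfl⟩ := h
  let n := Module.finrank F V
  let b : Module.Basis (Fin n) F V := Module.finBasis F V
  let M : G → Matrix (Fin n) (Fin n) F := fun g => LinearMap.toMatrix b b (ρ g)
  have M1 : M 1 = 1 := by
    change LinearMap.toMatrix b b (ρ 1) = 1
    rw [map_one]
    exact LinearMap.toMatrix_one b
  have Mm : ∀ g h, M (g * h) = M g * M h := by
    intro g h
    change LinearMap.toMatrix b b (ρ (g * h)) = _
    rw [map_mul]
    exact LinearMap.toMatrix_mul b _ _
  let ρ' : Representation F G (Fin n → F) :=
    { toFun := fun g => Matrix.toLin' ((M g).map σ)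
      map_one' := by
        rw [M1, Matrix.map_one σ (map_zero σ) (map_one σ), Matrix.toLin'_one]
        rfl
      map_mul' := fun g h => by
        rw [Mm, Matrix.map_mul, Matrix.toLin'_mul]
        rfl }
  let E : V → (Fin n → F) := fun v i => σ (b.repr v i)
  let E' : (Fin n → F) → V := fun w => b.equivFun.symm fun i => σ.symm (w i)
  have hE'E : ∀ v, E' (E v) = v := by
    intro v
    change b.equivFun.symm (fun i => σ.symm (σ (b.repr v i))) = v
    simp only [RingEquiv.symm_apply_apply]
    exact b.equivFun.symm_apply_apply v
  have hEE' : ∀ w, E (E' w) = w := by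
    intro w
    funext i
    change σ (b.equivFun (b.equivFun.symm fun i => σ.symm (w i)) i) = w i
    rw [LinearEquiv.apply_symm_apply, RingEquiv.apply_symm_apply]
  have hEadd : ∀ v w, E (v + w) = E v + E w := by
    intro v w
    funext i
    change σ (b.repr (v + w) i) = σ _ + σ _
    rw [map_add, Finsupp.add_apply, map_add]
  have hEsm : ∀ (a : F) v, E (a • v) = σ a • E v := by
    intro a v
    funext i
    change σ (b.repr (a • v) i) = σ a * σ _
    rw [map_smul, Finsupp.smul_apply, smul_eq_mul, map_mul]
  have hE0 : E 0 = 0 := by
    funext i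
    change σ (b.repr 0 i) = 0
    rw [map_zero, Finsupp.zero_apply, map_zero]
  have hEρ : ∀ g v, E (ρ g v) = ρ' g (E v) := by
    intro g v
    funext i
    change σ (b.repr (ρ g v) i) = (((M g).map σ).mulVec (E v)) i
    have h1 := congrFun (LinearMap.toMatrix_mulVec_repr b b (ρ g) v) i
    rw [← h1]
    simp only [Matrix.mulVec, dotProduct, map_sum, map_mul, Matrix.map_apply]
    rfl
  have hE'add : ∀ v w, E' (v + w) = E' v + E' w := by
    intro v w
    rw [← hEE' v, ← hEE' w, ← hEadd, hE'E, hE'E, hE'E]
  have hE'sm : ∀ (a : F) w, E' (a • w) = σ.symm a • E' w := by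
    intro a w
    have h1 := hEsm (σ.symm a) (E' w)
    rw [hEE', RingEquiv.apply_symm_apply] at h1
    rw [← h1, hE'E]
  have hE'ρ : ∀ g w, E' (ρ' g w) = ρ g (E' w) := by
    intro g w
    have h1 := hEρ g (E' w)
    rw [hEE'] at h1
    rw [← h1, hE'E]
  have hE'0 : E' 0 = 0 := by rw [← hE0, hE'E]
  let Φ : Subrepresentation ρ ≃o Subrepresentation ρ' :=
    { toFun := fun W =>
        { toSubmodule :=
            { carrier := {w | E' w ∈ W.toSubmodule}
              add_mem' := fun {a b} ha hb => by
                change E' (a + b) ∈ W.toSubmodule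
                rw [hE'add]
                exact W.toSubmodule.add_mem ha hb
              zero_mem' := by
                change E' 0 ∈ W.toSubmodule
                rw [hE'0]
                exact W.toSubmodule.zero_mem
              smul_mem' := fun a w hw => by
                change E' (a • w) ∈ W.toSubmodule
                rw [hE'sm]
                exact W.toSubmodule.smul_mem _ hw }
          apply_mem_toSubmodule := fun g w hw => by
            change E' (ρ' g w) ∈ W.toSubmodule
            rw [hE'ρ]
            exact W.apply_mem_toSubmodule g hw }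
      invFun := fun W =>
        { toSubmodule :=
            { carrier := {w | E w ∈ W.toSubmodule}
              add_mem' := fun {a b} ha hb => by
                change E (a + b) ∈ W.toSubmodule
                rw [hEadd]
                exact W.toSubmodule.add_mem ha hb
              zero_mem' := by
                change E 0 ∈ W.toSubmodule
                rw [hE0]
                exact W.toSubmodule.zero_mem
              smul_mem' := fun a w hw => by
                change E (a • w) ∈ W.toSubmodule
                rw [hEsm]
                exact W.toSubmodule.smul_mem _ hw }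
          apply_mem_toSubmodule := fun g w hw => by
            change E (ρ g w) ∈ W.toSubmodule
            rw [hEρ]
            exact W.apply_mem_toSubmodule g hw }
      left_inv := fun W => by
        ext w
        change E' (E w) ∈ W.toSubmodule ↔ w ∈ W.toSubmodule
        rw [hE'E]
      right_inv := fun W => by
        ext w
        change E (E' w) ∈ W.toSubmodule ↔ w ∈ W.toSubmodule
        rw [hEE']
      map_rel_iff' := by
        intro W W'
        constructor
        · intro h w hw
          have h1 : E w ∈ {w | E' w ∈ W.toSubmodule} := by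
            change E' (E w) ∈ W.toSubmodule
            rw [hE'E]
            exact hw
          have h2 : E' (E w) ∈ W'.toSubmodule := h h1
          rw [hE'E] at h2
          exact h2
        · intro h w hw
          exact h hw }
  refine ⟨Fin n → F, inferInstance, inferInstance, inferInstance, ρ', ?_, ?_⟩
  · have := hρ
    exact (OrderIso.isSimpleOrder_iff Φ).1 hρ
  · funext g
    change σ (LinearMap.trace F V (ρ g)) = LinearMap.trace F (Fin n → F) (Matrix.toLin' ((M g).map σ))
    rw [Matrix.trace_toLin'_eq, LinearMap.trace_eq_matrix_trace F b]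
    simp only [Matrix.trace, Matrix.diag, map_sum, Matrix.map_apply]
    rfl

theorem tr_map {J : Type} [Group J] [Finite J] (σ : F ≃+* F) (z : J → F) (c : F) :
    tr (fun x => σ (z x)) (σ c) = tr z c := by
  have _i : Fintype J := Fintype.ofFinite J
  have key : ∀ (τ : F ≃+* F) (z : J → F) (c : F) (φ : J → F),
      (IsIrrTrace φ ∧ True ∧ ∀ x, ∑ᶠ g, z g * φ (g * x) = c * φ x) →
      (IsIrrTrace (fun x => τ (φ x)) ∧ True ∧
        ∀ x, ∑ᶠ g, τ (z g) * τ (φ (g * x)) = τ c * τ (φ x)) := by
    rintro τ z c φ ⟨h1, -, h2⟩
    refine ⟨irr_map τ h1, trivial, fun x => ?_⟩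
    have h3 := h2 x
    rw [finsum_eq_sum_of_fintype] at h3 ⊢
    rw [← map_mul, ← h3, map_sum]
    exact Finset.sum_congr rfl fun g _ => (map_mul τ _ _).symm
  unfold tr
  refine Nat.card_congr
    { toFun := fun φ => ⟨fun x => σ.symm (φ.1 x), ?_⟩
      invFun := fun φ => ⟨fun x => σ (φ.1 x), key σ z c φ.1 φ.2⟩
      left_inv := fun φ => Subtype.ext (by funext x; simp)
      right_inv := fun φ => Subtype.ext (by funext x; simp) }
  have h := key σ.symm _ _ φ.1 φ.2
  simp only [RingEquiv.symm_apply_apply] at h
  exact h

theorem fl_tw [Finite G] (σ : F ≃+* F) (z : G → F) (c : F) (J : Subgroup G) :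
    FL (fun x => σ (z x)) (σ c) J = FL z c J := by
  rw [fl_tr, fl_tr, tr_map σ (fun x : J => z x) c]

end twist

section aa

variable {p : ℕ} [hp : Fact p.Prime] {F : Type} [Field F] [IsAlgClosed F] [CharP F p]
  {Γ : Type} [Group Γ] [Finite Γ]

/-- the alternating sums are invariant under the automorphisms of `F` -/
theorem aa_tw (red : integralClosure ℤ ℂ →+* F) (σ : F ≃+* F) {z : Γ → F} (hz : IsClassFun z)
    (c : F) : AA p red Γ (fun x => σ (z x)) (σ c) = AA p red Γ z c := by
  have hz' : IsClassFun (fun x => σ (z x)) := fun g x => congrArg σ (hz g x)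
  rw [aa_fl red hz', aa_fl red hz]
  refine finsum_congr fun s => ?_
  rw [fl_tw]

/-- the Frobenius twist -/
theorem aa_frob (red : integralClosure ℤ ℂ →+* F) {z : Γ → F} (hz : IsClassFun z) :
    AA p red Γ (fun x => z x ^ p) 1 = AA p red Γ z 1 := by
  have h := aa_tw (p := p) red (frobeniusEquiv F p) hz 1
  rw [map_one] at h
  exact h

end aa

end Pool.Agent.U259.WP
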