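import Pool.Agent.U259.WP.Blk

/-!
# Blockwise alternating sums and divisibility by `p`: main theorems
-/

set_option autoImplicit false
set_option linter.unusedSectionVars false

open scoped Classical BigOperators

noncomputable section

namespace Pool.Agent.U259.WP

open Pool.Agent.Y63.NV
open Pool.Agent.Y63.KR
open Pool.Agent.Y63.AWC (IsIrreducibleCharacter)
open Pool.Agent.N20.KB
open Pool.Agent.N85.WM (Wr Base wrF IsIdem BEq wrF_inZ)

variable {p : ℕ} {F : Type} [Field F] (red : integralClosure ℤ ℂ →+* F)

section main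

variable [hp : Fact p.Prime] [IsAlgClosed F] [CharP F p]

/-- divisibility for the blocks without characters of defect zero -/
def Div (p : ℕ) {F : Type} [Field F] (red : integralClosure ℤ ℂ →+* F) (k : ℕ) (G : Type)
    [Group G] : Prop :=
  ∀ B : (G → F) → F, IsBlock B → numDzBlock p red B = 0 → ((p : ℤ) ^ k) ∣ SB p red B

theorem div_step {k : ℕ} (hk : 1 ≤ k) (G : Type) [Group G] [Finite G] (h1 : Div p red k G)
    (h2 : Div p red k (Wr p G)) : Div p red (k + 1) G := by
  intro B hB hz
  obtain ⟨e, he⟩ := exists_sep hB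
  have hno := noDz_of red he hz
  have hw := noDz_wr red he.1 hno
  have h3 : ((p ^ k : ℕ) : ℤ) ∣ aB red p (Wr p G) (wrF p e) 1 :=
    dvd_aB red (wrF_inZ p G he.1.cl).conj 1 _ fun B' hB' h4 => by
      have h5 := h2 B' hB' (numDz_of red (wrF_inZ p G he.1.cl).conj h4 hw)
      exact_mod_cast h5
  have h6 := h1 B hB hz
  rw [SB_sep red he] at h6 ⊢
  exact pow_dvd_step hp.out hk (wr_formula red he.1) h6 (by exact_mod_cast h3)

theorem class_main (X : ∀ (G : Type) [Group G], Prop)
    (hX : ∀ (G : Type) [Group G] [Finite G], X G → X (Wr p G))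
    (h : ∀ (G : Type) [Group G] [Finite G], X G → Op1 p G → ∀ B : (G → F) → F, IsBlock B →
      numDzBlock p red B = 0 → (p : ℤ) ∣ SB p red B)
    (G : Type) [Group G] [Finite G] (hG : X G) (B : (G → F) → F) (hB : IsBlock B)
    (hz : numDzBlock p red B = 0) : SB p red B = 0 := by
  have key : ∀ k : ℕ, ∀ (G : Type) [Group G] [Finite G], X G → Div p red (k + 1) G := by
    intro k
    induction k with
    | zero =>
      intro G _ _ hG B hB hz
      rw [zero_add, pow_one]
      by_cases ho : Op1 p G
      · exact h G hG ho B hB hz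
      · rw [SB_zero red ho B hB]
        exact dvd_zero _
    | succ k ih =>
      intro G _ _ hG
      exact div_step red (Nat.succ_le_succ (Nat.zero_le k)) G (ih G hG) (ih (Wr p G) (hX G hG))
  refine eq_zero_of_pow hp.out fun k => ?_
  exact (pow_dvd_pow _ (Nat.le_succ k)).trans (key k G hG B hB hz)

/-- the alternating sums of the iterated wreath products -/
def SN (p : ℕ) [NeZero p] {F : Type} [Field F] (red : integralClosure ℤ ℂ →+* F) :
    ℕ → (G : Type) → [Group G] → (G → F) → ℤ
  | 0, G, _, e => aB red p G e 1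
  | j + 1, G, _, e => SN p red j (Wr p G) (wrF p e)

theorem tower (a : ℕ) : ∀ (G : Type) [Group G] [Finite G] (e : G → F), IsIdem e →
    ((p : ℤ) ^ a ∣ aB red p G e 1 ↔ ∀ j < a, (p : ℤ) ∣ SN p red j G e) := by
  induction a with
  | zero =>
    intro G _ _ e _
    simp
  | succ a ih =>
    intro G _ _ e he
    have hf := wr_formula (p := p) red he
    constructor
    · intro h j hj
      cases j with
      | zero => exact (dvd_pow_self _ (Nat.succ_ne_zero a)).trans h
      | succ j =>
        exact (ih (Wr p G) (wrF p e) (idem_wr red he)).1 (pow_dvd_back hp.out hf h) j (by omega)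
    · intro h
      have h0 : (p : ℤ) ∣ aB red p G e 1 := h 0 (Nat.succ_pos a)
      have h1 : (p : ℤ) ^ a ∣ aB red p (Wr p G) (wrF p e) 1 :=
        (ih (Wr p G) (wrF p e) (idem_wr red he)).2 fun j hj => h (j + 1) (by omega)
      -- climb up
      have key : ∀ b ≤ a, (p : ℤ) ^ (b + 1) ∣ aB red p G e 1 := by
        intro b
        induction b with
        | zero => intro _; rw [zero_add, pow_one]; exact h0
        | succ b ihb =>
          intro hb
          exact pow_dvd_step hp.out (Nat.succ_le_succ (Nat.zero_le b)) hf (ihb (by omega))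
            ((pow_dvd_pow _ hb).trans h1)
      exact key a le_rfl

theorem tower_zero (G : Type) [Group G] [Finite G] (e : G → F) (he : IsIdem e) :
    aB red p G e 1 = 0 ↔ ∀ j, (p : ℤ) ∣ SN p red j G e := by
  constructor
  · intro h j
    exact (tower red (j + 1) G e he).1 (h ▸ dvd_zero _) j (Nat.lt_succ_self j)
  · intro h
    exact eq_zero_of_pow hp.out fun k => (tower red k G e he).2 fun j _ => h j

end main

/-- the sum without signs -/
def TB (p : ℕ) {F : Type} [Field F] (red : integralClosure ℤ ℂ →+* F) {G : Type} [Group G]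
    (B : (G → F) → F) : ℕ :=
  ∑ᶠ c : Quotient (chainSetoid p G), numIrrInd red (chainStabilizer c.out.1) B

theorem parity {G : Type} [Group G] [Finite G] (B : (G → F) → F) :
    (2 : ℤ) ∣ SB p red B ↔ Even (TB p red B) := by
  have _i : Fintype (Quotient (chainSetoid p G)) := Fintype.ofFinite _
  rw [← Int.even_coe_nat, even_iff_two_dvd]
  have h : (2 : ℤ) ∣ SB p red B - (TB p red B : ℤ) := by
    unfold SB TB alternatingSum
    rw [finsum_eq_sum_of_fintype, finsum_eq_sum_of_fintype]
    push_cast
    rw [← Finset.sum_sub_distrib]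
    refine Finset.dvd_sum fun c _ => ?_
    rcases neg_one_pow_eq_or ℤ c.out.1.ncard with h1 | h1
    · rw [h1, one_mul, sub_self]
      exact dvd_zero _
    · rw [h1]
      exact ⟨-(numIrrInd red (chainStabilizer c.out.1) B : ℤ), by ring⟩
  constructor
  · intro h1
    have := dvd_sub h1 h
    rwa [sub_sub_cancel] at this
  · intro h1
    have := dvd_add h h1
    rwa [sub_add_cancel] at this

end Pool.Agent.U259.WP
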