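import Pool.Agent.U259.WP.Cmp
import Pool.Agent.N20.DI.Fin
import Pool.Agent.N85.TG.Exc0
import Pool.Agent.N237.DI.Sq

/-!
# Central characters of wreath products with `C_p`
-/

set_option autoImplicit false
set_option linter.unusedSectionVars false

open scoped Classical BigOperators

noncomputable section

namespace Pool.Agent.U259.WP

open Pool.Agent.Y63.NV
open Pool.Agent.Y63.KR
open Pool.Agent.Y63.AWC (IsIrreducibleCharacter)
open Pool.Agent.N20.KB
open Pool.Agent.N85.WM (Wr Base wrF IsIdem shiftHom mem_base card_wr card_quot wrF_inZ)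
open Pool.Agent.N85.WM.Wpi (toIrr ofIrr cv_tens)
open Pool.Agent.N19.RB (tens exists_tens tens_one)
open Pool.Agent.N20.DI (Dg HasDef Kd sN S_CLIFF)
open Pool.Agent.R674.Tw (Fixes)
open SemidirectProduct (inl inr)

section stab

variable {M : Type} [Group M] {N : Subgroup M} [hN : N.Normal]

/-- the stabiliser of a function on a normal subgroup -/
def stab (ψ : N → ℂ) : Subgroup M where
  carrier := {m | Fixes m ψ}
  mul_mem' := by
    intro a b ha hb n n' h
    have hb' : b * (n : M) * b⁻¹ ∈ N := hN.conj_mem _ n.2 b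
    rw [ha ⟨_, hb'⟩ n' (by rw [h]; simp [mul_assoc]), hb n ⟨_, hb'⟩ rfl]
  one_mem' := by
    intro n n' h
    congr 1
    apply Subtype.ext
    rw [h]
    simp
  inv_mem' := by
    intro a ha n n' h
    refine (ha n' n ?_).symm
    rw [h]
    group

theorem le_stab {ψ : N → ℂ} (h : ∀ g x : N, ψ (g * x * g⁻¹) = ψ x) : N ≤ stab ψ := by
  intro m hm n n' h1
  rw [← h ⟨m, hm⟩ n]
  congr 1
  exact Subtype.ext h1

theorem sN_stab (ψ : N → ℂ) : sN N ψ = Nat.card (stab ψ) := rfl

theorem dvd_sN [Finite M] {ψ : N → ℂ} (h : ∀ g x : N, ψ (g * x * g⁻¹) = ψ x) :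
    Nat.card N ∣ sN N ψ := by
  rw [sN_stab]
  exact Subgroup.card_dvd_of_le (le_stab h)

end stab

section vals

variable {p : ℕ} [hp : Fact p.Prime] {F : Type} [Field F] [IsAlgClosed F] [CharP F p]
  (red : integralClosure ℤ ℂ →+* F) {G : Type} [Group G] [Finite G]

theorem cyc_quot : IsCyclic (Wr p G ⧸ Base p G) :=
  isCyclic_of_prime_card (p := p) (card_quot p G)

theorem dg_le {J : Type} [Group J] [Finite J] {χ : J → ℂ} (h : IsIrreducibleCharacter χ) :
    ∃ n : ℕ, χ 1 = n ∧ n ≠ 0 ∧ n.factorization p ≤ (Nat.card J).factorization p := by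
  have _i : Fintype J := Fintype.ofFinite J
  refine ⟨dg χ, (dg_spec (chi := χ) h).1, (dg_spec (chi := χ) h).2.ne', ?_⟩
  have h1 := cod_spec (chi := χ) h
  exact (Nat.factorization_le_iff_dvd (dg_spec (chi := χ) h).2.ne' Nat.card_pos.ne').2
    ⟨_, h1.symm⟩ p

/-- the central characters of the wreath product at `e ⊗ ⋯ ⊗ e` -/
theorem vals {e : G → F} (he : IsClassFun e) {χ : Wr p G → ℂ} (hχ : IsIrreducibleCharacter χ) :
    ∃ θ : ZMod p → G → ℂ, (∀ i, IsIrreducibleCharacter (θ i)) ∧
      centralValue red χ (wrF p e) = ∏ i, centralValue red (θ i) e ∧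
      (HasDef p 0 χ → ∀ i, HasDef p 0 (θ i)) := by
  have : NeZero p := ⟨hp.out.ne_zero⟩
  have _f : Fintype (Wr p G) := Fintype.ofFinite _
  have _f2 : Fintype G := Fintype.ofFinite _
  have hz := wrF_inZ p G he
  obtain ⟨n, hn, hn0, hle⟩ := dg_le (p := p) hχ
  obtain ⟨D, hD⟩ : ∃ D, n.factorization p + D = (Nat.card (Wr p G)).factorization p :=
    ⟨_, Nat.add_sub_cancel' hle⟩
  have hcl := Pool.Agent.N20.DI.parts.cl p F red (Wr p G) (Base p G) cyc_quot (wrF p e) hz.conj
    hz.supp (centralValue red χ (wrF p e)) D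
  have h1 : Kd p red D (wrF p e) (centralValue red χ (wrF p e)) ≠ 0 := by
    unfold Kd
    have h2 : Finite {χ' : Wr p G → ℂ // IsIrreducibleCharacter χ' ∧ HasDef p D χ' ∧
        centralValue red χ' (wrF p e) = centralValue red χ (wrF p e)} :=
      ((Pool.Agent.Y914.NV.irr ℂ (Wr p G)).1.subset fun _ h => h.1).to_subtype
    have h3 : Nonempty {χ' : Wr p G → ℂ // IsIrreducibleCharacter χ' ∧ HasDef p D χ' ∧
        centralValue red χ' (wrF p e) = centralValue red χ (wrF p e)} :=
      ⟨⟨χ, hχ, ⟨n, hn, hD⟩, rfl⟩⟩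
    exact Nat.card_pos.ne'
  have h2 : (∑ᶠ ψ : {ψ : Base p G → ℂ // IsIrreducibleCharacter ψ ∧
      Dg p D (sN (Base p G) ψ) ψ ∧
        centralValue red ψ (fun n : Base p G => wrF p e n) = centralValue red χ (wrF p e)},
      (sN (Base p G) ψ.1) ^ 2) ≠ 0 := by
    rw [← hcl]
    exact mul_ne_zero (mul_ne_zero Nat.card_pos.ne' Nat.card_pos.ne') h1
  obtain ⟨ψ, hψ, hψD, hψv⟩ : Nonempty {ψ : Base p G → ℂ // IsIrreducibleCharacter ψ ∧
      Dg p D (sN (Base p G) ψ) ψ ∧
        centralValue red ψ (fun n : Base p G => wrF p e n) = centralValue red χ (wrF p e)} := by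
    by_contra h3
    rw [not_nonempty_iff] at h3
    apply h2
    exact finsum_of_isEmpty _
  -- transport to the power
  have hψ' : IsIrreducibleCharacter (fun x : ZMod p → G => ψ (bE x)) := irr_comp' bE hψ
  obtain ⟨θ, hθ, hθe⟩ := exists_tens (K := fun _ : ZMod p => G) (toIrr hψ')
  refine ⟨θ, fun i => ofIrr (hθ i), ?_, ?_⟩
  · rw [← hψv]
    have h4 := Pool.Agent.Y286.NV.centralValue_comp red (bE (p := p) (G := G)) ψ
      (Pool.Agent.Y286.NV.irr_class hψ) (fun n : Base p G => wrF p e n) (fun g x => hz.conj g x)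
    rw [← h4, hθe]
    have h5 : (fun x : ZMod p → G => wrF p e ((bE x : Base p G) : Wr p G)) =
        fun x => ∏ i, e (x i) := by
      funext x
      change wrF p e (inl x : Wr p G) = _
      unfold wrF
      rw [if_pos (by rfl)]
      rfl
    rw [h5]
    exact cv_tens red (fun i => ofIrr (hθ i)) (fun _ => e) (fun _ => he)
  · rintro hdef
    have hD0 : D = 0 := by
      obtain ⟨m, hm, hm2⟩ := hdef
      have h6 : m = n := by
        rw [hm] at hn
        exact_mod_cast hn
      rw [h6] at hm2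
      omega
    subst hD0
    obtain ⟨m, hm, hm2⟩ := hψD
    choose k hk hk0 hkle using fun i => dg_le (p := p) (ofIrr (hθ i))
    have h7 : (m : ℂ) = ((∏ i, k i : ℕ) : ℂ) := by
      rw [← hm]
      have h8 := congrFun hθe 1
      change ψ (bE 1) = _ at h8
      rw [map_one] at h8
      rw [h8, tens_one]
      push_cast
      exact Finset.prod_congr rfl fun i _ => hk i
    have h8 : m = ∏ i, k i := by exact_mod_cast h7
    have h9 : m.factorization p = ∑ i, (k i).factorization p := by
      rw [h8, Nat.factorization_prod fun i _ => hk0 i]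
      simp
    have h10 : (Nat.card (Base p G)).factorization p ≤ m.factorization p := by
      have h11 := dvd_sN (N := Base p G) (ψ := ψ) (Pool.Agent.Y624.NV.irr_class hψ)
      have h12 : sN (Base p G) ψ ≠ 0 := by
        rw [sN_stab]
        exact Nat.card_pos.ne'
      have h13 := (Nat.factorization_le_iff_dvd Nat.card_pos.ne' h12).2 h11 p
      omega
    have h14 : Nat.card (Base p G) = Nat.card G ^ p := by
      rw [← Nat.card_congr (bE (p := p) (G := G)).toEquiv, Nat.card_fun, Nat.card_zmod]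
    rw [h14, Nat.factorization_pow, Finsupp.smul_apply, smul_eq_mul, h9] at h10
    have h15 : ∑ _i : ZMod p, (Nat.card G).factorization p = p * (Nat.card G).factorization p := by
      rw [Finset.sum_const, Finset.card_univ, ZMod.card, smul_eq_mul]
    rw [← h15] at h10
    have h16 := (Finset.sum_eq_sum_iff_of_le (fun i _ => hkle i)).1
      (le_antisymm (Finset.sum_le_sum fun i _ => hkle i) h10)
    intro i
    exact ⟨k i, hk i, by rw [add_zero]; exact h16 i (Finset.mem_univ i)⟩

include red in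
/-- `e ⊗ ⋯ ⊗ e` takes the values `0` and `1` on the blocks -/
theorem idem_wr {e : G → F} (he : IsIdem e) : IsIdem (wrF p e) := by
  refine ⟨(wrF_inZ p G he.cl).conj, fun B hB => ?_⟩
  have : NeZero p := ⟨hp.out.ne_zero⟩
  have _f : Fintype (Wr p G) := Fintype.ofFinite _
  obtain ⟨χ, hχ, hχB⟩ := Pool.Agent.N85.TG.Exc.core red hB
  rw [← hχB _ (wrF_inZ p G he.cl).conj]
  obtain ⟨θ, hθ, hv, -⟩ := vals red he.cl hχ
  rw [hv]
  have h1 : ∀ i, centralValue red (θ i) e = 0 ∨ centralValue red (θ i) e = 1 := fun i =>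
    he.val _ (Pool.Agent.Y930.NV.cvh F red G (θ i) (hθ i))
  by_cases h : ∃ i, centralValue red (θ i) e = 0
  · obtain ⟨i, hi⟩ := h
    exact Or.inl (Finset.prod_eq_zero (Finset.mem_univ i) hi)
  · push Not at h
    exact Or.inr (Finset.prod_eq_one fun i _ => (h1 i).resolve_left (h i))

/-- no character of defect zero has the value `1` -/
def NoDz (p : ℕ) {F : Type} [Field F] (red : integralClosure ℤ ℂ →+* F) {G : Type} [Group G]
    (e : G → F) : Prop :=
  ∀ χ : G → ℂ, IsIrreducibleCharacter χ → HasDef p 0 χ → centralValue red χ e ≠ 1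

theorem noDz_wr {e : G → F} (he : IsIdem e) (h : NoDz p red e) : NoDz p red (wrF p e) := by
  have : NeZero p := ⟨hp.out.ne_zero⟩
  intro χ hχ hd hv
  obtain ⟨θ, hθ, hv', hd'⟩ := vals red he.cl hχ
  rw [hv] at hv'
  refine h (θ 0) (hθ 0) (hd' hd 0) ?_
  refine (he.val _ (Pool.Agent.Y930.NV.cvh F red G (θ 0) (hθ 0))).resolve_left fun h0 => ?_
  rw [Finset.prod_eq_zero (Finset.mem_univ 0) h0] at hv'
  exact one_ne_zero hv'

end vals

end Pool.Agent.U259.WP
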